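import Pool.Agent.Q266.RP.Stm

/-! Job SCHUR: central elements act by scalars. -/

namespace Pool.Agent.Q139.RP

open Module Pool.Agent.Q266.RP

theorem scal {G V : Type} [Group G] [AddCommGroup V] [Module ℂ V] [FiniteDimensional ℂ V]
    (ρ : Representation ℂ G V) (hρ : Irr ρ) (t : G) (ht : t ∈ Subgroup.center G) :
    ∃ c : ℂ, ∀ v, ρ t v = c • v := by
  haveI := hρ.1
  obtain ⟨c, hc⟩ := Module.End.exists_eigenvalue (ρ t)
  refine ⟨c, ?_⟩
  have h := hρ.2 (Module.End.eigenspace (ρ t) c) (by
    intro g w hw
    rw [Module.End.mem_eigenspace_iff] at hw ⊢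
    have h1 : ρ t (ρ g w) = ρ g (ρ t w) := by
      rw [← Module.End.mul_apply, ← Module.End.mul_apply, ← map_mul, ← map_mul,
        (Subgroup.mem_center_iff.1 ht g)]
    rw [h1, hw, map_smul])
  rcases h with h | h
  · exact absurd h hc
  · intro v
    have : v ∈ Module.End.eigenspace (ρ t) c := by rw [h]; exact Submodule.mem_top
    exact Module.End.mem_eigenspace_iff.1 this

theorem schur : S_SCHUR := by
  refine ⟨fun G V _ _ _ _ ρ hρ t ht => scal ρ hρ t ht, ?_, ?_⟩
  · intro p _ G V _ _ _ _ _ ρ hρ hinj
    classical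
    obtain ⟨v, hv⟩ := @exists_ne V hρ.1 0
    choose c hc using fun t : {t : G // t ∈ Subgroup.center G ∧ t ^ p = 1} => scal ρ hρ t.1 t.2.1
    have hp : 0 < p := (Fact.out : p.Prime).pos
    have hmem : ∀ t, c t ∈ (Polynomial.nthRoots p (1 : ℂ)).toFinset := by
      intro t
      rw [Multiset.mem_toFinset, Polynomial.mem_nthRoots hp]
      have h1 : ∀ k : ℕ, (ρ (t.1 ^ k)) v = (c t) ^ k • v := by
        intro k
        induction k with
        | zero => simp
        | succ k ih =>
          rw [pow_succ', map_mul, Module.End.mul_apply, ih, map_smul, hc t v, smul_smul, pow_succ]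
      have h2 := h1 p
      rw [t.2.2, map_one, Module.End.one_apply] at h2
      have h3 : ((c t) ^ p - 1) • v = 0 := by rw [sub_smul, ← h2, one_smul, sub_self]
      rcases smul_eq_zero.1 h3 with h | h
      · exact sub_eq_zero.1 h
      · exact absurd h hv
    have hinj' : Function.Injective fun t : {t : G // t ∈ Subgroup.center G ∧ t ^ p = 1} =>
        (⟨c t, hmem t⟩ : {x // x ∈ (Polynomial.nthRoots p (1 : ℂ)).toFinset}) := by
      intro s t hst
      have h1 : c s = c t := congrArg Subtype.val hst
      have h2 : ρ (s.1 * t.1⁻¹) = 1 := by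
        ext w
        have h3 := hc t (ρ t.1⁻¹ w)
        have h4 : ρ t.1 (ρ t.1⁻¹ w) = w := by
          rw [← Module.End.mul_apply, ← map_mul, mul_inv_cancel, map_one, Module.End.one_apply]
        rw [map_mul, Module.End.mul_apply, hc s, h1, ← h3, h4, Module.End.one_apply]
      have h3 := hinj _ h2
      exact Subtype.ext (mul_inv_eq_one.1 h3)
    have h1 := Nat.card_le_card_of_injective _ hinj'
    refine h1.trans ?_
    rw [Nat.card_eq_fintype_card, Fintype.card_coe]
    exact (Multiset.toFinset_card_le _).trans (Polynomial.card_nthRoots p 1)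
  · intro G V _ _ _ _ ρ hρ hcomm
    obtain ⟨v, hv⟩ := @exists_ne V hρ.1 0
    have h := hρ.2 (Submodule.span ℂ {v}) (by
      intro g w hw
      obtain ⟨c, hc⟩ := scal ρ hρ g (Subgroup.mem_center_iff.2 fun h => hcomm h g)
      rw [hc w]
      exact Submodule.smul_mem _ _ hw)
    rcases h with h | h
    · rw [Submodule.span_singleton_eq_bot] at h
      exact absurd h hv
    · rw [← finrank_top, ← h]
      exact finrank_span_singleton hv

end Pool.Agent.Q139.RP
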